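import Mathlib

/-!
# Eternal domination and clique covers: the prism over a corona

Let `F` be the complement of the Groetzsch graph (11 vertices) and let `G` be the corona of `F`: a new
leaf is attached to every vertex of `F`. Then `θ(G) = γ^∞(G) = 11`, but the prism `G □ K_2` has
`γ^∞(G □ K_2) ≤ 17 < 18 ≤ θ(G □ K_2)`.

The reason: for every graph `F` with `n` vertices the prism over its corona has clique cover number
`n + θ(F □ K_2)`, whereas its eternal domination number is at most `n + γ^∞(F □ K_2)`, and for the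
complement of the Groetzsch graph `γ^∞(F □ K_2) ≤ 2 γ^∞(F) = 6 < 7 = θ(F □ K_2)`.
-/

set_option autoImplicit false

namespace Pool.Agent.Results.MP_349597_co.CoronaPrismH37

open SimpleGraph Finset

/-- The clique cover number: the least number of cliques whose vertex sets partition the vertex set. -/
noncomputable def theta {V : Type} (G : SimpleGraph V) : ℕ :=
  sInf {k | ∃ f : V → Fin k, ∀ x y, f x = f y → x ≠ y → G.Adj x y}

/-- `𝓓` is an eternal family of `k`-element dominating sets of `G`. -/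
def IsEternal {V : Type} [DecidableEq V] (G : SimpleGraph V) (k : ℕ) (𝓓 : Set (Finset V)) : Prop :=
  𝓓.Nonempty ∧ (∀ D ∈ 𝓓, D.card = k ∧ ∀ v, v ∉ D → ∃ u ∈ D, G.Adj u v) ∧
    ∀ D ∈ 𝓓, ∀ v, v ∉ D → ∃ u ∈ D, G.Adj u v ∧ insert v (D.erase u) ∈ 𝓓

/-- The eternal domination number (one guard moves per attack). -/
noncomputable def eternalNumber {V : Type} [DecidableEq V] (G : SimpleGraph V) : ℕ :=
  sInf {k | 1 ≤ k ∧ ∃ 𝓓 : Set (Finset V), IsEternal G k 𝓓}

/-! ### The example -/

/-- The 20 edges of the Groetzsch graph. -/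
def hEdges : List (ℕ × ℕ) :=
  [(0, 1), (0, 4), (0, 6), (0, 9), (1, 2), (1, 5), (1, 7), (2, 3), (2, 6), (2, 8), (3, 4), (3, 7),
    (3, 9), (4, 5), (4, 8), (5, 10), (6, 10), (7, 10), (8, 10), (9, 10)]

/-- Adjacency in the Groetzsch graph. -/
def H (a b : Fin 11) : Prop := ((a : ℕ), (b : ℕ)) ∈ hEdges ∨ ((b : ℕ), (a : ℕ)) ∈ hEdges

instance : DecidableRel H := fun _ _ => inferInstanceAs (Decidable (_ ∨ _))

theorem H_symm {a b : Fin 11} (h : H a b) : H b a := h.symm

theorem H_irrefl : ∀ a : Fin 11, ¬ H a a := by decide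

theorem H_triangle : ∀ a b c : Fin 11, H a b → H b c → H a c → False := by decide +kernel

/-- The corona of the complement of the Groetzsch graph: the vertices `(v, false)` induce the
complement of the Groetzsch graph and `(v, true)` is a leaf attached to `(v, false)`. -/
def G : SimpleGraph (Fin 11 × Bool) where
  Adj x y := (x.2 = false ∧ y.2 = false ∧ x.1 ≠ y.1 ∧ ¬ H x.1 y.1) ∨ (x.1 = y.1 ∧ x.2 ≠ y.2)
  symm := ⟨by
    rintro x y (⟨h1, h2, h3, h4⟩ | ⟨h1, h2⟩)
    · exact Or.inl ⟨h2, h1, h3.symm, fun h => h4 (H_symm h)⟩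
    · exact Or.inr ⟨h1.symm, h2.symm⟩⟩
  loopless := ⟨by
    rintro x (⟨_, _, h, _⟩ | ⟨_, h⟩)
    · exact h rfl
    · exact h rfl⟩

/-- The prism over `G`. -/
abbrev P : SimpleGraph ((Fin 11 × Bool) × Fin 2) := G □ (⊤ : SimpleGraph (Fin 2))

/-! ### Lower bound by independent sets -/

theorem indep_le {V : Type} [DecidableEq V] {G : SimpleGraph V} {k : ℕ} {𝓓 : Set (Finset V)}
    (h : IsEternal G k 𝓓) (I : Finset V) (hI : ∀ x ∈ I, ∀ y ∈ I, ¬ G.Adj x y) : I.card ≤ k := by
  obtain ⟨⟨D0, hD0⟩, h1, h2⟩ := h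
  -- by induction every size up to the size of `I` is attained for the intersection
  have key : ∀ m : ℕ, m ≤ I.card → ∃ D ∈ 𝓓, m ≤ (D ∩ I).card := by
    intro m
    induction m with
    | zero => intro _; exact ⟨D0, hD0, Nat.zero_le _⟩
    | succ m ih =>
      intro hm
      obtain ⟨D, hD, hmD⟩ := ih (by omega)
      by_cases hlt : m + 1 ≤ (D ∩ I).card
      · exact ⟨D, hD, hlt⟩
      · have heq : (D ∩ I).card < I.card := by omega
        have : ∃ v ∈ I, v ∉ D := by
          by_contra hcon
          push Not at hcon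
          have : D ∩ I = I := Finset.inter_eq_right.2 hcon
          rw [this] at heq
          exact lt_irrefl _ heq
        obtain ⟨v, hvI, hvD⟩ := this
        obtain ⟨u, huD, huv, hD'⟩ := h2 D hD v hvD
        refine ⟨_, hD', ?_⟩
        have huI : u ∉ I := fun hu => hI u hu v hvI huv
        have h3 : insert v (D ∩ I) ⊆ insert v (D.erase u) ∩ I := by
          intro x hx
          rw [Finset.mem_insert] at hx
          rw [Finset.mem_inter, Finset.mem_insert, Finset.mem_erase]
          rcases hx with rfl | hx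
          · exact ⟨Or.inl rfl, hvI⟩
          · rw [Finset.mem_inter] at hx
            exact ⟨Or.inr ⟨fun h => huI (h ▸ hx.2), hx.1⟩, hx.2⟩
        have h4 := Finset.card_le_card h3
        rw [Finset.card_insert_of_notMem (fun h => hvD (Finset.mem_inter.1 h).1)] at h4
        omega
  obtain ⟨D, hD, hle⟩ := key _ le_rfl
  rw [← (h1 D hD).1]
  exact hle.trans (Finset.card_le_card Finset.inter_subset_left)

/-! ### The corona -/

theorem theta_G : theta G = 11 := by
  apply le_antisymm
  · refine Nat.sInf_le ⟨fun x => x.1, ?_⟩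
    intro x y hxy hne
    refine Or.inr ⟨hxy, fun h => hne (Prod.ext hxy h)⟩
  · refine le_csInf ⟨11, fun x => x.1, ?_⟩ ?_
    · intro x y hxy hne
      exact Or.inr ⟨hxy, fun h => hne (Prod.ext hxy h)⟩
    · rintro k ⟨f, hf⟩
      have hinj : Function.Injective (fun v : Fin 11 => f (v, true)) := by
        intro v w hvw
        by_contra hne
        have := hf (v, true) (w, true) hvw (fun h => hne (congrArg Prod.fst h))
        rcases this with ⟨h, _⟩ | ⟨h, _⟩
        · exact Bool.noConfusion h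
        · exact hne h
      simpa using Fintype.card_le_of_injective _ hinj

theorem eternal_G_ge {k : ℕ} {𝓓 : Set (Finset (Fin 11 × Bool))} (h : IsEternal G k 𝓓) : 11 ≤ k := by
  have h1 := indep_le h (Finset.univ.image fun v : Fin 11 => (v, true)) (by
    intro x hx y hy
    simp only [Finset.mem_image, Finset.mem_univ, true_and] at hx hy
    obtain ⟨v, rfl⟩ := hx
    obtain ⟨w, rfl⟩ := hy
    rintro (⟨h, _⟩ | ⟨_, h⟩)
    · exact Bool.noConfusion h
    · exact h rfl)
  rw [Finset.card_image_of_injective] at h1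
  · simpa using h1
  · intro v w hvw
    exact congrArg Prod.fst hvw

/-- The sets that contain exactly one of the vertices `(v, false)`, `(v, true)`, for every `v`. -/
def famG : Set (Finset (Fin 11 × Bool)) := {D | ∃ s : Fin 11 → Bool, ∀ x, x ∈ D ↔ s x.1 = x.2}

theorem card_famG {D : Finset (Fin 11 × Bool)} {s : Fin 11 → Bool} (h : ∀ x, x ∈ D ↔ s x.1 = x.2) :
    D.card = 11 := by
  have : D = Finset.univ.image fun v => (v, s v) := by
    ext x
    rw [h, Finset.mem_image]
    constructor
    · intro hx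
      exact ⟨x.1, Finset.mem_univ _, Prod.ext rfl hx⟩
    · rintro ⟨v, _, rfl⟩
      rfl
  rw [this, Finset.card_image_of_injective]
  · simp
  · intro v w hvw
    exact congrArg Prod.fst hvw

theorem eternal_G : IsEternal G 11 famG := by
  have step : ∀ D ∈ famG, ∀ v, v ∉ D → ∃ u ∈ D, G.Adj u v ∧ insert v (D.erase u) ∈ famG := by
    rintro D ⟨s, hs⟩ v hv
    have hv' : s v.1 ≠ v.2 := fun h => hv ((hs v).2 h)
    refine ⟨(v.1, s v.1), (hs _).2 rfl, Or.inr ⟨rfl, hv'⟩, Function.update s v.1 v.2, ?_⟩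
    intro x
    rw [Finset.mem_insert, Finset.mem_erase, hs]
    by_cases hx : x.1 = v.1
    · rw [hx, Function.update_self]
      constructor
      · rintro (rfl | ⟨h1, h2⟩)
        · rfl
        · exact absurd (show x = (v.1, s v.1) from Prod.ext hx h2.symm) h1
      · intro h
        exact Or.inl (Prod.ext hx h.symm)
    · rw [Function.update_of_ne hx]
      constructor
      · rintro (rfl | ⟨_, h2⟩)
        · exact absurd rfl hx
        · exact h2
      · intro h
        exact Or.inr ⟨fun h' => hx (by rw [h']), h⟩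
  refine ⟨⟨Finset.univ.filter fun x => (fun _ => false : Fin 11 → Bool) x.1 = x.2,
    fun _ => false, fun x => by simp⟩, ?_, step⟩
  intro D hD
  obtain ⟨s, hs⟩ := hD
  refine ⟨card_famG hs, fun v hv => ?_⟩
  obtain ⟨u, h1, h2, _⟩ := step D ⟨s, hs⟩ v hv
  exact ⟨u, h1, h2⟩

theorem eternalNumber_G : eternalNumber G = 11 := by
  apply le_antisymm
  · exact Nat.sInf_le ⟨by norm_num, famG, eternal_G⟩
  · refine le_csInf ⟨11, by norm_num, famG, eternal_G⟩ ?_
    rintro k ⟨_, 𝓓, h⟩
    exact eternal_G_ge h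

/-! ### Guarding the prism with 17 guards -/

/-- Three guards, two of which are adjacent in the Groetzsch graph, defend its complement. -/
theorem three_guards {A : Finset (Fin 11)} (hA : A.card = 3) (he : ∃ a ∈ A, ∃ b ∈ A, H a b)
    {v : Fin 11} (hv : v ∉ A) : ∃ u ∈ A, u ≠ v ∧ ¬ H u v ∧
      (insert v (A.erase u)).card = 3 ∧
      ∃ a ∈ insert v (A.erase u), ∃ b ∈ insert v (A.erase u), H a b := by
  have hcard : ∀ u ∈ A, (insert v (A.erase u)).card = 3 := by
    intro u hu
    rw [Finset.card_insert_of_notMem (fun h => hv (Finset.mem_of_mem_erase h)),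
      Finset.card_erase_of_mem hu, hA]
  obtain ⟨a, ha, b, hb, hab⟩ := he
  have hne : a ≠ b := fun h => H_irrefl b (h ▸ hab)
  have hex : ∃ c ∈ A, c ≠ a ∧ c ≠ b := by
    by_contra hcon
    push Not at hcon
    have : A ⊆ {a, b} := by
      intro c hc
      rw [Finset.mem_insert, Finset.mem_singleton]
      by_cases h : c = a
      · exact Or.inl h
      · exact Or.inr (hcon c hc h)
    have h1 := Finset.card_le_card this
    have h2 : ({a, b} : Finset (Fin 11)).card ≤ 2 := Finset.card_le_two
    omega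
  obtain ⟨c, hc, hca, hcb⟩ := hex
  by_cases hcv : H c v
  · have hav : ¬ H a v ∨ ¬ H b v := by
      by_contra hcon
      push Not at hcon
      exact H_triangle a b v hab hcon.2 hcon.1
    rcases hav with h | h
    · refine ⟨a, ha, fun h' => hv (h' ▸ ha), h, hcard a ha, c, ?_, v, ?_, hcv⟩
      · exact Finset.mem_insert_of_mem (Finset.mem_erase.2 ⟨hca, hc⟩)
      · exact Finset.mem_insert_self _ _
    · refine ⟨b, hb, fun h' => hv (h' ▸ hb), h, hcard b hb, c, ?_, v, ?_, hcv⟩
      · exact Finset.mem_insert_of_mem (Finset.mem_erase.2 ⟨hcb, hc⟩)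
      · exact Finset.mem_insert_self _ _
  · refine ⟨c, hc, fun h' => hv (h' ▸ hc), hcv, hcard c hc, a, ?_, b, ?_, hab⟩
    · exact Finset.mem_insert_of_mem (Finset.mem_erase.2 ⟨hca.symm, ha⟩)
    · exact Finset.mem_insert_of_mem (Finset.mem_erase.2 ⟨hcb.symm, hb⟩)

/-- The family for the prism. -/
def famP : Set (Finset ((Fin 11 × Bool) × Fin 2)) :=
  {D | ∃ (s : Fin 11 → Fin 2) (A : Fin 2 → Finset (Fin 11)),
    (∀ i, (A i).card = 3 ∧ ∃ a ∈ A i, ∃ b ∈ A i, H a b) ∧
    (∀ v i, ((v, true), i) ∈ D ↔ s v = i) ∧ (∀ v i, ((v, false), i) ∈ D ↔ v ∈ A i)}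

theorem card_famP {D : Finset ((Fin 11 × Bool) × Fin 2)} {s : Fin 11 → Fin 2}
    {A : Fin 2 → Finset (Fin 11)} (hA : ∀ i, (A i).card = 3)
    (h1 : ∀ v i, ((v, true), i) ∈ D ↔ s v = i) (h2 : ∀ v i, ((v, false), i) ∈ D ↔ v ∈ A i) :
    D.card = 17 := by
  have hD : D = (Finset.univ.image fun v => ((v, true), s v)) ∪
      (((A 0).image fun v => ((v, false), 0)) ∪ ((A 1).image fun v => ((v, false), 1))) := by
    ext ⟨⟨v, b⟩, i⟩
    simp only [Finset.mem_union, Finset.mem_image, Finset.mem_univ, true_and, Prod.mk.injEq]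
    cases b
    · rw [h2]
      constructor
      · intro h
        right
        fin_cases i
        · exact Or.inl ⟨v, h, ⟨rfl, rfl⟩, rfl⟩
        · exact Or.inr ⟨v, h, ⟨rfl, rfl⟩, rfl⟩
      · rintro (⟨w, ⟨_, h⟩, _⟩ | ⟨w, h, ⟨rfl, _⟩, rfl⟩ | ⟨w, h, ⟨rfl, _⟩, rfl⟩)
        · exact Bool.noConfusion h
        · exact h
        · exact h
    · rw [h1]
      constructor
      · intro h
        exact Or.inl ⟨v, ⟨rfl, rfl⟩, h⟩
      · rintro (⟨w, ⟨rfl, _⟩, h⟩ | ⟨w, h, ⟨_, h'⟩, _⟩ | ⟨w, h, ⟨_, h'⟩, _⟩)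
        · exact h
        · exact Bool.noConfusion h'
        · exact Bool.noConfusion h'
  rw [hD, Finset.card_union_of_disjoint, Finset.card_union_of_disjoint,
    Finset.card_image_of_injective, Finset.card_image_of_injective,
    Finset.card_image_of_injective, hA, hA]
  · simp
  · intro v w hvw; simpa using hvw
  · intro v w hvw; simpa using hvw
  · intro v w hvw
    simp only [Prod.mk.injEq] at hvw
    exact hvw.1.1
  · rw [Finset.disjoint_left]
    intro x hx hx'
    simp only [Finset.mem_image] at hx hx'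
    obtain ⟨v, _, rfl⟩ := hx
    obtain ⟨w, _, hw⟩ := hx'
    simp at hw
  · rw [Finset.disjoint_left]
    intro x hx hx'
    simp only [Finset.mem_image, Finset.mem_univ, true_and, Finset.mem_union] at hx hx'
    obtain ⟨v, rfl⟩ := hx
    rcases hx' with ⟨w, _, hw⟩ | ⟨w, _, hw⟩ <;> simp at hw

theorem P_rung {x : Fin 11 × Bool} {i j : Fin 2} (h : i ≠ j) : P.Adj (x, i) (x, j) := by
  rw [boxProd_adj]
  exact Or.inr ⟨h, rfl⟩

theorem P_layer {u v : Fin 11} {i : Fin 2} (h1 : u ≠ v) (h2 : ¬ H u v) :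
    P.Adj ((u, false), i) ((v, false), i) := by
  rw [boxProd_adj]
  exact Or.inl ⟨Or.inl ⟨rfl, rfl, h1, h2⟩, rfl⟩

theorem eternal_P : IsEternal P 17 famP := by
  have step : ∀ D ∈ famP, ∀ v, v ∉ D → ∃ u ∈ D, P.Adj u v ∧ insert v (D.erase u) ∈ famP := by
    rintro D ⟨s, A, hA, h1, h2⟩ ⟨⟨v, b⟩, i⟩ hv
    cases b
    · rw [h2] at hv
      obtain ⟨u, hu, huv, hH, hc, he⟩ := three_guards (hA i).1 (hA i).2 hv
      refine ⟨((u, false), i), (h2 _ _).2 hu, P_layer huv hH, s,
        Function.update A i (insert v ((A i).erase u)), ?_, ?_, ?_⟩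
      · intro j
        by_cases hj : j = i
        · subst hj
          rw [Function.update_self]
          exact ⟨hc, he⟩
        · rw [Function.update_of_ne hj]
          exact hA j
      · intro w j
        rw [Finset.mem_insert, Finset.mem_erase, h1]
        constructor
        · rintro (h | ⟨_, h⟩)
          · simp at h
          · exact h
        · intro h
          exact Or.inr ⟨by simp, h⟩
      · intro w j
        rw [Finset.mem_insert, Finset.mem_erase, h2]
        by_cases hj : j = i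
        · subst hj
          rw [Function.update_self, Finset.mem_insert, Finset.mem_erase]
          simp
        · rw [Function.update_of_ne hj]
          constructor
          · rintro (h | ⟨_, h⟩)
            · simp only [Prod.mk.injEq] at h
              exact absurd h.2 hj
            · exact h
          · intro h
            refine Or.inr ⟨fun h' => hj ?_, h⟩
            simp only [Prod.mk.injEq] at h'
            exact h'.2
    · rw [h1] at hv
      refine ⟨((v, true), s v), (h1 _ _).2 rfl, P_rung hv, Function.update s v i, A, hA, ?_, ?_⟩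
      · intro w j
        rw [Finset.mem_insert, Finset.mem_erase, h1]
        by_cases hw : w = v
        · subst hw
          rw [Function.update_self]
          constructor
          · rintro (h | ⟨h3, h4⟩)
            · simp only [Prod.mk.injEq] at h
              exact h.2.symm
            · exact absurd (by rw [h4]) h3
          · intro h
            exact Or.inl (by rw [h])
        · rw [Function.update_of_ne hw]
          constructor
          · rintro (h | ⟨_, h⟩)
            · simp only [Prod.mk.injEq] at h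
              exact absurd h.1.1 hw
            · exact h
          · intro h
            refine Or.inr ⟨fun h' => hw ?_, h⟩
            simp only [Prod.mk.injEq] at h'
            exact h'.1.1
      · intro w j
        rw [Finset.mem_insert, Finset.mem_erase, h2]
        constructor
        · rintro (h | ⟨_, h⟩)
          · simp at h
          · exact h
        · intro h
          exact Or.inr ⟨by simp, h⟩
  refine ⟨?_, ?_, step⟩
  · refine ⟨Finset.univ.filter fun x : (Fin 11 × Bool) × Fin 2 =>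
      (x.1.2 = true ∧ 0 = x.2) ∨ (x.1.2 = false ∧ x.1.1 ∈ ({0, 1, 2} : Finset (Fin 11))),
      fun _ => 0, fun _ => {0, 1, 2}, ?_, ?_, ?_⟩
    · intro i
      show ({0, 1, 2} : Finset (Fin 11)).card = 3 ∧ ∃ a ∈ ({0, 1, 2} : Finset (Fin 11)),
        ∃ b ∈ ({0, 1, 2} : Finset (Fin 11)), H a b
      exact ⟨by decide, 0, by decide, 1, by decide, by decide⟩
    · intro v i
      simp
    · intro v i
      simp
  · rintro D hD
    obtain ⟨s, A, hA, h1, h2⟩ := hD
    refine ⟨card_famP (fun i => (hA i).1) h1 h2, fun v hv => ?_⟩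
    obtain ⟨u, h3, h4, _⟩ := step D ⟨s, A, hA, h1, h2⟩ v hv
    exact ⟨u, h3, h4⟩

theorem eternalNumber_P : eternalNumber P ≤ 17 := Nat.sInf_le ⟨by norm_num, famP, eternal_P⟩

/-! ### The Groetzsch graph -/

/-- It is not 3-colourable. -/
theorem no_three (h : Fin 11 → Fin 3) : ∃ a b, H a b ∧ h a = h b := by
  by_contra hcon
  push Not at hcon
  -- recolour the outer 5-cycle without using the colour of the vertex `10`
  have key : ∀ c x0 x1 x2 x3 x4 : Fin 3, (x0 ≠ c ∧ x1 ≠ c ∧ x2 ≠ c ∧ x3 ≠ c ∧ x4 ≠ c) →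
      (x0 ≠ x1 ∧ x1 ≠ x2 ∧ x2 ≠ x3 ∧ x3 ≠ x4 ∧ x4 ≠ x0) → False := by
    rintro c x0 x1 x2 x3 x4 ⟨h0, h1, h2, h3, h4⟩ ⟨g0, g1, g2, g3, g4⟩
    omega
  set g : Fin 11 → Fin 11 → Fin 3 := fun v u => if h v = h 10 then h u else h v with hg
  have hne : ∀ v u, H u 10 → g v u ≠ h 10 := by
    intro v u hu
    simp only [hg]
    split_ifs with h1
    · exact hcon u 10 hu
    · exact h1
  have hadj : ∀ v u v' u', H v v' → H v u' → H u v' → g v u ≠ g v' u' := by
    intro v u v' u' h1 h2 h3
    simp only [hg]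
    split_ifs with h4 h5 h5
    · exact absurd (h4.trans h5.symm) (hcon v v' h1)
    · exact hcon u v' h3
    · exact hcon v u' h2
    · exact hcon v v' h1
  refine key (h 10) (g 0 5) (g 1 6) (g 2 7) (g 3 8) (g 4 9) ⟨hne _ _ (by decide),
    hne _ _ (by decide), hne _ _ (by decide), hne _ _ (by decide), hne _ _ (by decide)⟩
    ⟨hadj _ _ _ _ (by decide) (by decide) (by decide),
    hadj _ _ _ _ (by decide) (by decide) (by decide),
    hadj _ _ _ _ (by decide) (by decide) (by decide),
    hadj _ _ _ _ (by decide) (by decide) (by decide),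
    hadj _ _ _ _ (by decide) (by decide) (by decide)⟩

/-- Some 5-cycles of the Groetzsch graph. -/
def cycles : List (Fin 11 × Fin 11 × Fin 11 × Fin 11 × Fin 11) :=
  [(0, 1, 2, 3, 4), (0, 1, 5, 10, 6), (2, 3, 7, 10, 8), (0, 4, 8, 10, 9), (1, 2, 8, 4, 5),
    (0, 6, 2, 3, 9), (1, 5, 4, 3, 7)]

theorem cycles_adj : ∀ c ∈ cycles, H c.1 c.2.1 ∧ H c.2.1 c.2.2.1 ∧ H c.2.2.1 c.2.2.2.1 ∧
    H c.2.2.2.1 c.2.2.2.2 ∧ H c.2.2.2.2 c.1 := by
  intro c hc
  simp only [cycles, List.mem_cons, List.not_mem_nil, or_false] at hc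
  rcases hc with rfl | rfl | rfl | rfl | rfl | rfl | rfl <;>
    exact ⟨by decide, by decide, by decide, by decide, by decide⟩

/-- the vertices of a cycle -/
def vtx (c : Fin 11 × Fin 11 × Fin 11 × Fin 11 × Fin 11) : List (Fin 11) :=
  [c.1, c.2.1, c.2.2.1, c.2.2.2.1, c.2.2.2.2]

theorem cycles_avoid' : (List.range 11).all (fun r => (List.range 11).all fun s =>
    (cycles.map fun c => (vtx c).map Fin.val).any
      (fun c => c.all fun x => x != r && x != s)) = true := by
  decide +kernel

theorem cycles_avoid (r s : Fin 11) : ∃ c ∈ cycles, ∀ x ∈ vtx c, x ≠ r ∧ x ≠ s := by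
  have h := cycles_avoid'
  rw [List.all_eq_true] at h
  have h1 := h r.val (List.mem_range.2 r.isLt)
  rw [List.all_eq_true] at h1
  have h2 := h1 s.val (List.mem_range.2 s.isLt)
  rw [List.any_eq_true] at h2
  obtain ⟨l, hl, h3⟩ := h2
  obtain ⟨c, hc, rfl⟩ := List.mem_map.1 hl
  refine ⟨c, hc, fun x hx => ?_⟩
  have h4 := (List.all_eq_true.1 h3) x.val (List.mem_map.2 ⟨x, hx, rfl⟩)
  simp only [Bool.and_eq_true, bne_iff_ne, ne_eq] at h4
  exact ⟨fun h => h4.1 (congrArg Fin.val h), fun h => h4.2 (congrArg Fin.val h)⟩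

/-- The Groetzsch graph minus two vertices is not bipartite. -/
theorem no_two (R : Finset (Fin 11)) (hR : R.card ≤ 2) (h : Fin 11 → Bool) :
    ∃ a b, a ∉ R ∧ b ∉ R ∧ H a b ∧ h a = h b := by
  have hRS : ∃ r s : Fin 11, R ⊆ {r, s} := by
    rcases Nat.lt_or_ge R.card 2 with h1 | h1
    · rcases Nat.lt_or_ge R.card 1 with h2 | h2
      · have : R = ∅ := Finset.card_eq_zero.1 (by omega)
        exact ⟨0, 0, by rw [this]; exact Finset.empty_subset _⟩
      · obtain ⟨r, rfl⟩ := Finset.card_eq_one.1 (show R.card = 1 by omega)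
        exact ⟨r, r, by simp⟩
    · obtain ⟨r, s, _, rfl⟩ := Finset.card_eq_two.1 (show R.card = 2 by omega)
      exact ⟨r, s, Finset.Subset.refl _⟩
  obtain ⟨r, s, hrs⟩ := hRS
  obtain ⟨⟨a, b, c, d, e⟩, hc, hall'⟩ := cycles_avoid r s
  obtain ⟨g1, g2, g3, g4, g5⟩ := cycles_adj _ hc
  simp only at g1 g2 g3 g4 g5
  obtain ⟨h1, h6⟩ := hall' a (by simp [vtx])
  obtain ⟨h2, h7⟩ := hall' b (by simp [vtx])
  obtain ⟨h3, h8⟩ := hall' c (by simp [vtx])
  obtain ⟨h4, h9⟩ := hall' d (by simp [vtx])
  obtain ⟨h5, h10⟩ := hall' e (by simp [vtx])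
  have hn : ∀ x : Fin 11, x ≠ r → x ≠ s → x ∉ R := by
    intro x hxr hxs hx
    have := hrs hx
    rw [Finset.mem_insert, Finset.mem_singleton] at this
    rcases this with h | h
    · exact hxr h
    · exact hxs h
  by_contra hcon
  push Not at hcon
  have k1 := hcon a b (hn a h1 h6) (hn b h2 h7) g1
  have k2 := hcon b c (hn b h2 h7) (hn c h3 h8) g2
  have k3 := hcon c d (hn c h3 h8) (hn d h4 h9) g3
  have k4 := hcon d e (hn d h4 h9) (hn e h5 h10) g4
  have k5 := hcon e a (hn e h5 h10) (hn a h1 h6) g5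
  have key : ∀ x1 x2 x3 x4 x5 : Bool, ¬ (x1 ≠ x2 ∧ x2 ≠ x3 ∧ x3 ≠ x4 ∧ x4 ≠ x5 ∧ x5 ≠ x1) := by
    decide
  exact key _ _ _ _ _ ⟨k1, k2, k3, k4, k5⟩

/-- The Groetzsch graph minus four vertices has an edge. -/
theorem no_one (R : Finset (Fin 11)) (hR : R.card ≤ 4) : ∃ a b, a ∉ R ∧ b ∉ R ∧ H a b := by
  by_contra hcon
  push Not at hcon
  -- five disjoint edges
  have key : ∀ a b : Fin 11, H a b → a ∈ R ∨ b ∈ R := by
    intro a b hab
    by_contra h
    push Not at h
    exact hcon a b h.1 h.2 hab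
  -- the disjoint edges 01, 26, 39, 48, 7 10
  have m1 := key 0 1 (by decide)
  have m2 := key 2 6 (by decide)
  have m3 := key 3 9 (by decide)
  have m4 := key 4 8 (by decide)
  have m5 := key 7 10 (by decide)
  set g : Fin 11 → ℕ := fun v => if v ∈ R then 1 else 0 with hg
  have hcard : R.card = ∑ v : Fin 11, g v := by
    simp [hg]
  have hsum : ∑ v : Fin 11, g v = g 0 + g 1 + g 2 + g 3 + g 4 + g 5 + g 6 + g 7 + g 8 + g 9 + g 10 :=
    Fin.sum_univ_def g ▸ by simp [List.finRange_succ, add_assoc]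
  have hpos : ∀ a b : Fin 11, (a ∈ R ∨ b ∈ R) → 1 ≤ g a + g b := by
    intro a b h
    simp only [hg]
    rcases h with h | h <;> simp [h]
  have e1 := hpos _ _ m1
  have e2 := hpos _ _ m2
  have e3 := hpos _ _ m3
  have e4 := hpos _ _ m4
  have e5 := hpos _ _ m5
  omega

/-- A proper colouring of the Groetzsch graph minus `R` with `c` colours has `|R| + 2 c ≥ 7`. -/
theorem groetzsch {α : Type} [DecidableEq α] (R : Finset (Fin 11)) (h : Fin 11 → α)
    (hh : ∀ a b, a ∉ R → b ∉ R → H a b → h a ≠ h b) :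
    7 ≤ R.card + 2 * ((Finset.univ \ R).image h).card := by
  by_contra hcon
  push Not at hcon
  set C := (Finset.univ \ R).image h with hC
  have hmem : ∀ a, a ∉ R → h a ∈ C := fun a ha => Finset.mem_image.2 ⟨a, by simp [ha], rfl⟩
  rcases Nat.lt_or_ge C.card 1 with h1 | h1
  · -- no colours
    have hC0 : C = ∅ := Finset.card_eq_zero.1 (by omega)
    have hR : R = Finset.univ := by
      apply Finset.eq_univ_of_forall
      intro a
      by_contra ha
      have := hmem a ha
      rw [hC0] at this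
      simp at this
    rw [hR] at hcon
    simp only [Finset.card_univ, Fintype.card_fin] at hcon
    omega
  rcases Nat.lt_or_ge C.card 2 with h2 | h2
  · obtain ⟨x, hx⟩ := Finset.card_eq_one.1 (show C.card = 1 by omega)
    obtain ⟨a, b, ha, hb, hab⟩ := no_one R (by omega)
    have e1 := hmem a ha
    have e2 := hmem b hb
    rw [hx, Finset.mem_singleton] at e1 e2
    exact hh a b ha hb hab (e1.trans e2.symm)
  rcases Nat.lt_or_ge C.card 3 with h3 | h3
  · obtain ⟨x, y, hxy, hx⟩ := Finset.card_eq_two.1 (show C.card = 2 by omega)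
    obtain ⟨a, b, ha, hb, hab, heq⟩ := no_two R (by omega) (fun a => decide (h a = x))
    have e1 := hmem a ha
    have e2 := hmem b hb
    rw [hx, Finset.mem_insert, Finset.mem_singleton] at e1 e2
    refine hh a b ha hb hab ?_
    simp only [decide_eq_decide] at heq
    rcases e1 with e1 | e1 <;> rcases e2 with e2 | e2
    · rw [e1, e2]
    · exact (heq.1 e1).symm ▸ e1
    · rw [heq.2 e2, e2]
    · rw [e1, e2]
  · -- three colours, `R = ∅`
    have hR : R = ∅ := Finset.card_eq_zero.1 (by omega)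
    have hc3 : C.card = 3 := by omega
    obtain ⟨x, y, z, hxy, hxz, hyz, hx⟩ := Finset.card_eq_three.1 hc3
    obtain ⟨a, b, hab, heq⟩ := no_three
      (fun a => if h a = x then 0 else if h a = y then 1 else 2)
    have ha : a ∉ R := by rw [hR]; simp
    have hb : b ∉ R := by rw [hR]; simp
    have e1 := hmem a ha
    have e2 := hmem b hb
    rw [hx, Finset.mem_insert, Finset.mem_insert, Finset.mem_singleton] at e1 e2
    refine hh a b ha hb hab ?_
    rcases e1 with e1 | e1 | e1 <;> rcases e2 with e2 | e2 | e2 <;>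
      simp [e1, e2, hxy.symm, hxz.symm, hyz.symm] at heq ⊢

/-! ### Clique covers of the prism -/

theorem P_adj_iff {x y : (Fin 11 × Bool) × Fin 2} : P.Adj x y ↔
    (((x.1.2 = false ∧ y.1.2 = false ∧ x.1.1 ≠ y.1.1 ∧ ¬ H x.1.1 y.1.1) ∨
      (x.1.1 = y.1.1 ∧ x.1.2 ≠ y.1.2)) ∧ x.2 = y.2) ∨ (x.2 ≠ y.2 ∧ x.1 = y.1) := by
  rw [boxProd_adj]
  rfl

theorem cover_ge {k : ℕ} (f : (Fin 11 × Bool) × Fin 2 → Fin k)
    (hf : ∀ x y, f x = f y → x ≠ y → P.Adj x y) : 18 ≤ k := by
  classical
  by_contra hcon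
  push Not at hcon
  -- colours of the leaves
  set L : Fin 2 → Finset (Fin k) := fun i => Finset.univ.image fun v => f ((v, true), i) with hL
  set Y : Finset (Fin 11) := Finset.univ.filter fun v => f ((v, true), 0) = f ((v, true), 1) with hY
  have leaf : ∀ v w i j, f ((v, true), i) = f ((w, true), j) → v = w := by
    intro v w i j h
    by_contra hne
    have h1 := hf _ _ h (fun h' => hne (congrArg (fun x => x.1.1) h'))
    rw [P_adj_iff] at h1
    rcases h1 with ⟨⟨h2, _⟩ | ⟨h2, _⟩, _⟩ | ⟨_, h2⟩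
    · exact Bool.noConfusion h2
    · exact hne h2
    · exact hne (congrArg Prod.fst h2)
  have mixed : ∀ v w i j, f ((v, false), i) = f ((w, true), j) → v = w ∧ i = j := by
    intro v w i j h
    have h1 := hf _ _ h (fun h' => by
      have := congrArg (fun x => x.1.2) h'
      exact Bool.noConfusion this)
    rw [P_adj_iff] at h1
    rcases h1 with ⟨⟨_, h2, _⟩ | ⟨h2, _⟩, h3⟩ | ⟨_, h2⟩
    · exact Bool.noConfusion h2
    · exact ⟨h2, h3⟩
    · have := congrArg Prod.snd h2
      exact Bool.noConfusion this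
  have inner : ∀ v w i j, f ((v, false), i) = f ((w, false), j) →
      (v = w) ∨ (i = j ∧ ¬ H v w) := by
    intro v w i j h
    by_cases hvw : v = w
    · exact Or.inl hvw
    · right
      have h1 := hf _ _ h (fun h' => hvw (congrArg (fun x => x.1.1) h'))
      rw [P_adj_iff] at h1
      rcases h1 with ⟨⟨_, _, _, h2⟩ | ⟨h2, _⟩, h3⟩ | ⟨_, h2⟩
      · exact ⟨h3, h2⟩
      · exact absurd h2 hvw
      · exact absurd (congrArg Prod.fst h2) hvw
  have hinjL : ∀ i, (L i).card = 11 := by
    intro i
    rw [hL]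
    simp only
    rw [Finset.card_image_of_injective]
    · simp
    · intro v w hvw
      exact leaf v w i i hvw
  have hinter : (L 0 ∩ L 1).card = Y.card := by
    have : L 0 ∩ L 1 = Y.image fun v => f ((v, true), 0) := by
      ext c
      simp only [hL, hY, Finset.mem_inter, Finset.mem_image, Finset.mem_univ, true_and,
        Finset.mem_filter]
      constructor
      · rintro ⟨⟨v, hv⟩, ⟨w, hw⟩⟩
        have hvw := leaf v w 0 1 (hv.trans hw.symm)
        subst hvw
        exact ⟨v, hv.trans hw.symm, hv⟩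
      · rintro ⟨v, hv, rfl⟩
        exact ⟨⟨v, rfl⟩, ⟨v, hv.symm⟩⟩
    rw [this, Finset.card_image_of_injective]
    intro v w hvw
    exact leaf v w 0 0 hvw
  have hunion : (L 0 ∪ L 1).card + Y.card = 22 := by
    have := Finset.card_union_add_card_inter (L 0) (L 1)
    rw [hinter, hinjL, hinjL] at this
    exact this
  -- inner vertices over `Y`
  set R : Finset (Fin 11) := Finset.univ.filter fun v =>
    v ∉ Y ∨ f ((v, false), 0) = f ((v, false), 1) with hR
  have hRmem : ∀ v, v ∉ R → v ∈ Y ∧ f ((v, false), 0) ≠ f ((v, false), 1) := by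
    intro v hv
    rw [hR, Finset.mem_filter] at hv
    push Not at hv
    exact hv (Finset.mem_univ _)
  set C : Fin 2 → Finset (Fin k) := fun i => (Finset.univ \ R).image fun v => f ((v, false), i)
    with hC
  have hg : ∀ i, 7 ≤ R.card + 2 * (C i).card := by
    intro i
    refine groetzsch R (fun v => f ((v, false), i)) ?_
    intro a b _ _ hab heq
    rcases inner a b i i heq with h | h
    · exact H_irrefl b (h ▸ hab)
    · exact h.2 hab
  -- rung colours
  set Q : Finset (Fin 11) := Y.filter fun v => f ((v, false), 0) = f ((v, false), 1) with hQ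
  set CQ : Finset (Fin k) := Q.image fun v => f ((v, false), 0) with hCQ
  have hQcard : CQ.card = Q.card := by
    rw [hCQ]
    refine Finset.card_image_of_injOn ?_
    intro v hv w hw hvw
    have hv' := Finset.mem_coe.1 hv
    rw [hQ, Finset.mem_filter] at hv'
    have h1 : f ((v, false), 1) = f ((w, false), 0) := hv'.2.symm.trans hvw
    rcases inner v w 1 0 h1 with h | h
    · exact h
    · exact absurd h.1 (by decide)
  have memQ : ∀ v, v ∈ Q ↔ v ∈ Y ∧ f ((v, false), 0) = f ((v, false), 1) := by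
    intro v
    rw [hQ]
    exact Finset.mem_filter
  have memR : ∀ v, v ∈ R ↔ v ∉ Y ∨ f ((v, false), 0) = f ((v, false), 1) := by
    intro v
    rw [hR]
    exact Finset.mem_filter.trans (and_iff_right (Finset.mem_univ v))
  have hRcard : R.card + Y.card = Q.card + 11 := by
    have h1 : R = (Finset.univ \ Y) ∪ Q := by
      ext v
      rw [memR, Finset.mem_union, Finset.mem_sdiff, memQ]
      constructor
      · rintro (h | h)
        · exact Or.inl ⟨Finset.mem_univ _, h⟩
        · by_cases hv : v ∈ Y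
          · exact Or.inr ⟨hv, h⟩
          · exact Or.inl ⟨Finset.mem_univ _, hv⟩
      · rintro (⟨_, h⟩ | ⟨_, h⟩)
        · exact Or.inl h
        · exact Or.inr h
    have h2 : Disjoint (Finset.univ \ Y) Q := by
      rw [Finset.disjoint_left]
      intro v hv hv'
      rw [Finset.mem_sdiff] at hv
      rw [memQ] at hv'
      exact hv.2 hv'.1
    rw [h1, Finset.card_union_of_disjoint h2, Finset.card_sdiff_of_subset (Finset.subset_univ _)]
    have h3 := Finset.card_le_univ Y
    simp only [Finset.card_univ, Fintype.card_fin] at h3 ⊢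
    omega
  -- all these colours are different
  have notleaf : ∀ v ∈ Y, ∀ i, f ((v, false), i) ∉ L 0 ∪ L 1 := by
    intro v hv i hmem
    rw [hY, Finset.mem_filter] at hv
    rw [Finset.mem_union] at hmem
    simp only [hL, Finset.mem_image, Finset.mem_univ, true_and] at hmem
    rcases hmem with ⟨w, hw⟩ | ⟨w, hw⟩
    · obtain ⟨h1, h2⟩ := mixed v w i 0 hw.symm
      subst h1
      have := mixed v v i 1 (hw.symm.trans hv.2)
      rw [h2] at this
      exact absurd this.2 (by decide)
    · obtain ⟨h1, h2⟩ := mixed v w i 1 hw.symm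
      subst h1
      have := mixed v v i 0 (hw.symm.trans hv.2.symm)
      rw [h2] at this
      exact absurd this.2 (by decide)
  have hd1 : Disjoint (C 0) (C 1) := by
    rw [Finset.disjoint_left]
    intro c hc hc'
    simp only [hC, Finset.mem_image, Finset.mem_sdiff, Finset.mem_univ, true_and] at hc hc'
    obtain ⟨v, hv, rfl⟩ := hc
    obtain ⟨w, hw, hvw⟩ := hc'
    rcases inner w v 1 0 hvw with h | h
    · subst h
      exact (hRmem w hw).2 hvw.symm
    · exact absurd h.1 (by decide)
  have hd2 : Disjoint (C 0 ∪ C 1) CQ := by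
    rw [Finset.disjoint_left]
    intro c hc hc'
    rw [hCQ, Finset.mem_image] at hc'
    obtain ⟨w, hw, rfl⟩ := hc'
    rw [hQ, Finset.mem_filter] at hw
    rw [Finset.mem_union] at hc
    simp only [hC, Finset.mem_image, Finset.mem_sdiff, Finset.mem_univ, true_and] at hc
    rcases hc with ⟨v, hv, hvw⟩ | ⟨v, hv, hvw⟩
    · rcases inner v w 0 1 (hvw.trans hw.2) with h | h
      · subst h
        exact (hRmem v hv).2 hw.2
      · exact absurd h.1 (by decide)
    · rcases inner v w 1 0 hvw with h | h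
      · subst h
        exact (hRmem v hv).2 hw.2
      · exact absurd h.1 (by decide)
  have hd3 : Disjoint (L 0 ∪ L 1) ((C 0 ∪ C 1) ∪ CQ) := by
    rw [Finset.disjoint_right]
    intro c hc
    rw [Finset.mem_union, Finset.mem_union] at hc
    simp only [hC, hCQ, Finset.mem_image, Finset.mem_sdiff, Finset.mem_univ, true_and] at hc
    rcases hc with (⟨v, hv, rfl⟩ | ⟨v, hv, rfl⟩) | ⟨v, hv, rfl⟩
    · exact notleaf v (hRmem v hv).1 0
    · exact notleaf v (hRmem v hv).1 1
    · rw [hQ, Finset.mem_filter] at hv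
      exact notleaf v hv.1 0
  have htotal : ((L 0 ∪ L 1) ∪ ((C 0 ∪ C 1) ∪ CQ)).card ≤ k := by
    have := Finset.card_le_univ ((L 0 ∪ L 1) ∪ ((C 0 ∪ C 1) ∪ CQ))
    simpa using this
  rw [Finset.card_union_of_disjoint hd3, Finset.card_union_of_disjoint hd2,
    Finset.card_union_of_disjoint hd1, hQcard] at htotal
  have g0 := hg 0
  have g1 := hg 1
  omega

theorem theta_P : 18 ≤ theta P := by
  refine le_csInf ?_ ?_
  · refine ⟨44, fun x => (Fintype.equivFinOfCardEq (by simp)) x, ?_⟩
    intro x y hxy hne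
    exact absurd ((Fintype.equivFinOfCardEq _).injective hxy) hne
  · rintro k ⟨f, hf⟩
    exact cover_ge f hf

/-- **The statement of Q1 is false**: there is a graph `G` (with 22 vertices) such that
`θ(G) = γ^∞(G)` but `γ^∞(G □ K_2) < θ(G □ K_2)`. -/
theorem result : ∃ (V : Type) (_ : Fintype V) (_ : DecidableEq V) (G : SimpleGraph V),
    theta G = eternalNumber G ∧
    eternalNumber (G □ (⊤ : SimpleGraph (Fin 2))) < theta (G □ (⊤ : SimpleGraph (Fin 2))) :=
  ⟨Fin 11 × Bool, inferInstance, inferInstance, G, theta_G.trans eternalNumber_G.symm,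
    lt_of_lt_of_le (Nat.lt_succ_of_le eternalNumber_P) theta_P⟩

end Pool.Agent.Results.MP_349597_co.CoronaPrismH37
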